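import Pool.Agent.helper60.XP.SpecT

/-!
# Project xp: (MP_af9036_an), module ENS: the energy inequality for the normalised differential
-/

set_option autoImplicit false

open Complex Metric Set Filter Topology MeasureTheory
open V3S (UF)
open XP

noncomputable section

namespace XPT

theorem ENS_TT (f : Polynomial ℂ) (q : ℂ → ℂ) (s : ℂ) (z : ℂ) :
    PPS.TT f (fun x => s * q x) z = s * PPS.TT f q z := by
  unfold PPS.TT
  rw [← Multiset.sum_map_mul_left]
  congr 1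
  refine Multiset.map_congr rfl fun y _ => ?_
  ring

theorem ENS (hMIX : XPS.MIX_stmt) : ENS_stmt := by
  intro n C A D hG hs0 hs1
  have hE := hG.eng
  have hH : D.H = fun z => (D.s : ℂ) * D.H0 z := rfl
  have had : XPS.AD D.f D.PP D.H := by
    refine ⟨hE.ad.deg, hE.ad.fin, hE.ad.inv, ?_⟩
    rw [hH]
    exact hE.ad.dif.const_mul _
  have hTT : ∀ z, PPS.TT D.f D.H z = (D.s : ℂ) * PPS.TT D.f D.H0 z := fun z => by
    rw [hH]; exact ENS_TT D.f D.H0 D.s z
  have hns : ‖(D.s : ℂ)‖ = D.s := by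
    rw [Complex.norm_real, Real.norm_of_nonneg hs0.le]
  have her : ∀ z, ‖XPS.er D.f D.H z‖ = D.s * ‖XPS.er D.f D.H0 z‖ := fun z => by
    unfold XPS.er
    rw [hTT, hH, ← mul_sub, norm_mul, hns]
  have hDf : ∀ z, XPS.Df D.f D.H z = D.s * XPS.Df D.f D.H0 z := fun z => by
    unfold XPS.Df
    rw [hTT, norm_mul, hns, mul_sub, hH, ← Multiset.sum_map_mul_left]
    congr 2
    refine Multiset.map_congr rfl fun y _ => ?_
    rw [norm_mul, hns]
    ring
  have hpos : ∀ z, 0 ≤ XPS.Df D.f D.H0 z + 2 * ‖XPS.er D.f D.H0 z‖ := fun z =>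
    add_nonneg ((hMIX D.f D.PP D.H0 hE.ad).2.2.2.2 z) (by positivity)
  have hsc : ∀ z, XPS.Df D.f D.H z + 2 * ‖XPS.er D.f D.H z‖ =
      D.s * (XPS.Df D.f D.H0 z + 2 * ‖XPS.er D.f D.H0 z‖) := fun z => by
    rw [hDf, her]; ring
  have h2 : ∫⁻ z in ball (0 : ℂ) D.rad,
      ENNReal.ofReal (XPS.Df D.f D.H z + 2 * ‖XPS.er D.f D.H z‖) ≤
      ENNReal.ofReal (D.s * D.E) := by
    have h3 : (fun z => ENNReal.ofReal (XPS.Df D.f D.H z + 2 * ‖XPS.er D.f D.H z‖)) =
        fun z => ENNReal.ofReal D.s *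
          ENNReal.ofReal (XPS.Df D.f D.H0 z + 2 * ‖XPS.er D.f D.H0 z‖) := by
      funext z
      rw [hsc z, ENNReal.ofReal_mul hs0.le]
    rw [h3, lintegral_const_mul' _ _ ENNReal.ofReal_ne_top, ENNReal.ofReal_mul hs0.le]
    exact mul_le_mul_right hE.hE _
  refine ⟨⟨hE.hn, hE.hdeg, had, hE.posR, hE.inv, hE.E0, ?_⟩, h2⟩
  exact h2.trans (ENNReal.ofReal_le_ofReal (by nlinarith [hE.E0]))

end XPT
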