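import Pool.Agent.helper60.XP.SpecN

/-!
# Project xp: (MP_af9036_an), module NA1: algebra of one datum
-/

set_option autoImplicit false

open Complex Metric Set Filter Topology MeasureTheory
open V3S (UF)
open XP
open XPX (nu)

noncomputable section

namespace XPN

theorem NA1_term (s x p g : ℂ) (hs : s ≠ 0) :
    s ^ 2 * (1 / (s * (x - p)) ^ 2 + g / (s * (x - p))) = 1 / (x - p) ^ 2 + s * g / (x - p) := by
  rcases eq_or_ne (x - p) 0 with h | h
  · rw [h]; simp
  · field_simp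

theorem NA1 : NA1_stmt := by
  intro n C A D hG
  have hR0 : 0 < D.R 0 := hG.Rpos 0
  have hsg : D.sg = ((D.R 0 : ℝ) : ℂ) := rfl
  have hsg0 : D.sg ≠ 0 := by rw [hsg]; exact_mod_cast hR0.ne'
  have hsgn : ‖D.sg‖ = D.R 0 := by rw [hsg, Complex.norm_real, Real.norm_of_nonneg hR0.le]
  have hzz : ∀ x l, D.zz x - D.b l = D.sg * (x - D.p l) := by
    intro x l
    show D.b 0 + D.sg * x - D.b l = D.sg * (x - (D.b l - D.b 0) / D.sg)
    field_simp
    ring
  have hbb : ∀ i l, ‖D.b i - D.b l‖ = D.R 0 * ‖D.p i - D.p l‖ := by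
    intro i l
    have h1 : D.b i - D.b l = D.sg * (D.p i - D.p l) := by
      show D.b i - D.b l = D.sg * ((D.b i - D.b 0) / D.sg - (D.b l - D.b 0) / D.sg)
      field_simp
      ring
    rw [h1, norm_mul, hsgn]
  refine ⟨?_, ?_, ?_, ?_, ?_, ?_⟩
  · intro x
    show D.sg ^ 2 * MPS.BB D.b D.g (D.zz x) = V3.BF D.p (fun l => D.sg * D.g l) x
    unfold MPS.BB V3.BF
    rw [Finset.mul_sum]
    refine Finset.sum_congr rfl fun l _ => ?_
    rw [hzz x l]
    exact NA1_term D.sg x (D.p l) (D.g l) hsg0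
  · show (D.b 0 - D.b 0) / D.sg = 0
    rw [sub_self, zero_div]
  · intro i l hil
    have h1 := hG.sepr i l hil
    have h2 := hG.mini i
    rw [hbb] at h1
    have h3 : D.R 0 * 1 ≤ D.R 0 * ‖D.p i - D.p l‖ := by linarith
    exact le_of_mul_le_mul_left h3 hR0
  · intro i
    rw [norm_mul, hsgn]
    have h1 := hG.hg i
    have h2 := hG.mini i
    have h3 : D.R 0 * ‖D.g i‖ ≤ ‖D.g i‖ * D.R i := by
      rw [mul_comm]
      exact mul_le_mul_of_nonneg_left h2 (norm_nonneg _)
    linarith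
  · intro x
    show D.sg ^ 2 * ((D.s : ℂ) * (MPS.BB D.b D.g (D.zz x) + D.r (D.zz x))) =
      (D.s : ℂ) * (D.sg ^ 2 * MPS.BB D.b D.g (D.zz x) + D.sg ^ 2 * D.r (D.zz x))
    ring
  · intro x hx
    have hA : 0 < A := lt_of_lt_of_le one_pos hG.A1
    have hm : D.zz x ∈ ball (D.b 0) (A * D.R 0) := by
      rw [mem_ball, dist_eq_norm]
      have : D.zz x - D.b 0 = D.sg * x := by
        show D.b 0 + D.sg * x - D.b 0 = D.sg * x
        ring
      rw [this, norm_mul, hsgn, mul_comm]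
      exact mul_lt_mul_of_pos_right hx hR0
    have h1 := (hG.invi 0 _ hm).2.1
    rw [norm_mul, norm_pow, hsgn, le_div_iff₀ hA]
    linarith

end XPN
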